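import Pool.Agent.helper73.NH.Spec
import Pool.Agent.helper41.UG.KOL

/-!
# Project nh (MP_a2a22c_al), row UST: stabilisers in unipotent groups.
-/

set_option autoImplicit false

namespace Pool.Agent.NH

open Matrix Module Pool.Agent.PR Pool.Agent.SHL

theorem UST_mono (hHA : HA_stmt) {G : Type} [Group G] (N k : ℕ) (H : Subgroup G) (h : Hi (N + k) H) :
    Hi N H := by
  induction k with
  | zero => exact h
  | succ k ih => exact ih ((hHA G).2.1 (N + k) H h)

theorem UST_top (hHA : HA_stmt) {G : Type} [Group G] (N : ℕ) (H : Subgroup G) (h : Hi N H) :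
    Hi N (⊤ : Subgroup H) := by
  have h1 := (hHA G).2.2.2.2.2 H H.subtype H.subtype_injective N H (by rw [Subgroup.range_subtype]) h
  have h2 : H.comap H.subtype = ⊤ := by
    rw [eq_top_iff]
    intro x _
    exact x.2
  rw [h2] at h1
  exact h1

theorem UST_map (hHA : HA_stmt) (hHB : HB_stmt) {G G' : Type} [Group G] [Group G'] (φ : G →* G')
    (hφ : Function.Injective φ) (N : ℕ) (H : Subgroup G) (h : Hi N H) : Hi N (H.map φ) := by
  obtain ⟨a, b, hab, ha, hb⟩ := hHB G G' φ N H h
  have h0 : a = 0 := by
    refine (hHA G).2.2.2.1 a _ ?_ ha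
    rintro x ⟨_, hx⟩
    refine ⟨1, one_pos, ?_⟩
    rw [pow_one]
    apply hφ
    rw [map_one]
    exact hx
  have : b = N := by omega
  rw [this] at hb
  exact hb

theorem UST_aux (hHA : HA_stmt) (hHB : HB_stmt) (hHD : HD_stmt) (hKOT : Pool.Agent.UG.KOT_stmt) :
    ∀ (d : ℕ) (V : Type) [AddCommGroup V] [Module ℚ V] [FiniteDimensional ℚ V] (Q : Type) [Group Q]
    (ρ : Q →* Module.End ℚ V) (U : Subgroup Q) (M : Submodule ℚ V),
    (∀ u ∈ U, IsNilpotent (ρ u - 1)) → (∀ u ∈ U, ∀ v, ρ u v - v ∈ M) → finrank ℚ M ≤ d →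
    ∀ N : ℕ, Hi (N + d) U → ∀ v : V,
    ∃ U' : Subgroup Q, U' ≤ U ∧ (∀ u ∈ U', ρ u v = v) ∧ Hi N U' := by
  intro d
  induction d with
  | zero =>
    intro V _ _ _ Q _ ρ U M hn hM hd N hN v
    have hM0 : M = ⊥ := Submodule.finrank_eq_zero.1 (Nat.le_zero.1 hd)
    refine ⟨U, le_refl _, ?_, hN⟩
    intro u hu
    have h1 := hM u hu v
    rw [hM0, Submodule.mem_bot] at h1
    exact sub_eq_zero.1 h1
  | succ d ih =>
    intro V _ _ _ Q _ ρ U M hn hM hd N hN v
    by_cases hM0 : M = ⊥
    · refine ⟨U, le_refl _, ?_, UST_mono hHA N (d + 1) U hN⟩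
      intro u hu
      have h1 := hM u hu v
      rw [hM0, Submodule.mem_bot] at h1
      exact sub_eq_zero.1 h1
    · -- the fixed vector in `M`
      set ρ' : U →* Module.End ℚ V := ρ.comp U.subtype with hρ'
      have hρa : ∀ (u : U) (w : V), ρ' u w = ρ (u : Q) w := fun u w => rfl
      have hW : ∀ g : U, ∀ w ∈ M, ρ' g w ∈ M := by
        intro g w hw
        have h1 := hM g g.2 w
        have h2 := M.add_mem h1 hw
        rw [sub_add_cancel] at h2
        exact h2
      have hnM : ∀ g, IsNilpotent (Pool.Agent.UG.KOL_res ρ' M hW g - 1) := by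
        intro g
        obtain ⟨k, hk⟩ := hn g g.2
        refine ⟨k, ?_⟩
        apply LinearMap.ext
        intro w
        apply Subtype.ext
        rw [Pool.Agent.UG.KOL_res_pow]
        have hk' : (ρ' g - 1) ^ k = 0 := hk
        rw [hk']
        simp
      have hpos : 0 < finrank ℚ M := by
        rw [Nat.pos_iff_ne_zero]
        intro h
        exact hM0 (Submodule.finrank_eq_zero.1 h)
      obtain ⟨m, hm0, hm⟩ := Pool.Agent.UG.KOL_fix hKOT M U (Pool.Agent.UG.KOL_res ρ' M hW) hnM hpos
      have hfix : ∀ u : U, ρ' u (m : V) = (m : V) := by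
        intro u
        have h1 := congrArg Subtype.val (hm u)
        rw [Pool.Agent.UG.KOL_res_apply] at h1
        exact h1
      have hx0 : (m : V) ≠ 0 := fun h => hm0 (Subtype.ext h)
      -- the quotient
      have hS : ∀ g : U, (Submodule.span ℚ {(m : V)}) ≤ (Submodule.span ℚ {(m : V)}).comap (ρ' g) := by
        intro g x hx
        obtain ⟨c, rfl⟩ := Submodule.mem_span_singleton.1 hx
        rw [Submodule.mem_comap, map_smul, hfix]
        exact hx
      set W := Submodule.span ℚ {(m : V)} with hWdef
      set σ := Pool.Agent.UG.KOL_quo ρ' W hS with hσ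
      have hnσ : ∀ u ∈ (⊤ : Subgroup U), IsNilpotent (σ u - 1) := by
        intro g _
        obtain ⟨k, hk⟩ := hn g g.2
        refine ⟨k, ?_⟩
        apply LinearMap.ext
        intro x
        obtain ⟨y, rfl⟩ := W.mkQ_surjective x
        rw [hσ, Pool.Agent.UG.KOL_quo_pow]
        have hk' : (ρ' g - 1) ^ k = 0 := hk
        rw [hk']
        simp
      have hMσ : ∀ u ∈ (⊤ : Subgroup U), ∀ w, σ u w - w ∈ M.map W.mkQ := by
        intro u _ w
        obtain ⟨y, rfl⟩ := W.mkQ_surjective w
        rw [hσ, Pool.Agent.UG.KOL_quo_apply, ← map_sub]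
        exact Submodule.mem_map_of_mem (hM u u.2 y)
      have hfr : finrank ℚ (M.map W.mkQ) ≤ d := by
        have h1 := LinearMap.finrank_range_add_finrank_ker (W.mkQ.domRestrict M)
        rw [LinearMap.range_domRestrict] at h1
        have h2 : 0 < finrank ℚ (LinearMap.ker (W.mkQ.domRestrict M)) := by
          rw [Nat.pos_iff_ne_zero]
          intro h
          have h3 := Submodule.finrank_eq_zero.1 h
          have h4 : m ∈ LinearMap.ker (W.mkQ.domRestrict M) := by
            rw [LinearMap.mem_ker, LinearMap.domRestrict_apply, Submodule.mkQ_apply,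
              Submodule.Quotient.mk_eq_zero]
            exact Submodule.mem_span_singleton_self _
          rw [h3, Submodule.mem_bot] at h4
          exact hm0 h4
        omega
      have hN' : Hi (N + 1 + d) (⊤ : Subgroup U) := by
        have h1 := UST_top hHA (N + (d + 1)) U hN
        have h2 : N + (d + 1) = N + 1 + d := by ring
        rw [h2] at h1
        exact h1
      obtain ⟨U₁, _, hU₁, hHi₁⟩ := ih (V ⧸ W) U σ ⊤ (M.map W.mkQ) hnσ hMσ hfr (N + 1) hN' (W.mkQ v)
      have hex : ∀ u : U₁, ∃ c : ℚ, ρ' (u : U) v = v + c • (m : V) := by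
        intro u
        have h1 := hU₁ u u.2
        rw [hσ, Pool.Agent.UG.KOL_quo_apply, ← sub_eq_zero, ← map_sub, Submodule.mkQ_apply,
          Submodule.Quotient.mk_eq_zero] at h1
        obtain ⟨c, hc⟩ := Submodule.mem_span_singleton.1 h1
        refine ⟨c, ?_⟩
        rw [hc]
        abel
      choose c hc using hex
      have huniq : ∀ a b : ℚ, v + a • (m : V) = v + b • (m : V) → a = b := by
        intro a b h
        have h1 := add_left_cancel h
        exact smul_left_injective ℚ hx0 h1
      have hcmul : ∀ u u' : U₁, c (u * u') = c u + c u' := by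
        intro u u'
        apply huniq
        rw [← hc]
        have h1 : ρ' ((u * u' : U₁) : U) v = ρ' (u : U) (ρ' (u' : U) v) := by
          rw [Subgroup.coe_mul, map_mul, Module.End.mul_apply]
        rw [h1, hc u', map_add, map_smul, hfix, hc u, add_smul]
        abel
      let φ : U₁ →* Multiplicative ℚ :=
        { toFun := fun u => Multiplicative.ofAdd (c u)
          map_one' := by
            have h1 := hcmul 1 1
            rw [mul_one] at h1
            have h2 : c 1 = 0 := by linarith
            rw [h2]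
            rfl
          map_mul' := by
            intro u u'
            rw [hcmul]
            rfl }
      have hφ : ∀ u, φ u = Multiplicative.ofAdd (c u) := fun u => rfl
      obtain ⟨a, b, hab, ha, hb⟩ := hHB U₁ (Multiplicative ℚ) φ (N + 1) ⊤ (UST_top hHA _ _ hHi₁)
      have hb1 : b ≤ 1 := by
        have h1 := hHD (Multiplicative ℚ) ℚ (Subgroup.map φ ⊤) (fun x => Multiplicative.toAdd x)
          (by intro x _ y _; rfl)
          (by
            intro x _ hx
            refine ⟨1, one_pos, ?_⟩
            rw [pow_one]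
            exact hx) b hb
        refine le_trans h1 ?_
        refine le_trans (Submodule.finrank_le _) ?_
        rw [Module.finrank_self]
      have haN : Hi N ((⊤ : Subgroup U₁) ⊓ φ.ker) := by
        obtain ⟨k, hk⟩ : ∃ k, a = N + k := ⟨a - N, by omega⟩
        rw [hk] at ha
        exact UST_mono hHA N k _ ha
      refine ⟨((⊤ : Subgroup U₁) ⊓ φ.ker).map (U.subtype.comp U₁.subtype), ?_, ?_, ?_⟩
      · rintro _ ⟨y, _, rfl⟩
        exact (y : U).2
      · rintro _ ⟨y, ⟨_, hy⟩, rfl⟩
        have h1 : φ y = 1 := hy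
        have h2 : c y = 0 := by
          rw [hφ] at h1
          exact h1
        have h3 := hc y
        rw [h2, zero_smul, add_zero] at h3
        exact h3
      · refine UST_map hHA hHB _ ?_ N _ haN
        intro x y hxy
        apply Subtype.ext
        apply Subtype.ext
        exact hxy

theorem UST (hHA : HA_stmt) (hHB : HB_stmt) (hHD : HD_stmt) (hKOT : Pool.Agent.UG.KOT_stmt) : UST_stmt := by
  intro V _ _ _ Q _ ρ U M hn hM N hN v
  exact UST_aux hHA hHB hHD hKOT _ V Q ρ U M hn hM le_rfl N hN v

end Pool.Agent.NH
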